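import Pool.Agent.helper92.VC.Spec

/-!
# Row RTF: from `k(ε)` to `k((ε))`
-/

universe u

namespace Pool.Agent.helper92.VC

open MvPolynomial
open scoped RatFunc

theorem RTF_roabp {K L : Type*} [CommRing K] [CommRing L] {n : ℕ} (w : ℕ) (j : K →+* L)
    (A : MvPolynomial (Fin n) K) (h : IsROABP w A) : IsROABP w (MvPolynomial.map j A) := by
  obtain ⟨τ, M, u, v, rfl⟩ := h
  refine ⟨τ, fun i => (M i).map (Polynomial.map j), fun s => j (u s), fun s => j (v s), ?_⟩
  rw [RingHom.map_dotProduct]
  have h1 : (⇑(MvPolynomial.map j) ∘ fun s => (C (u s) : MvPolynomial (Fin n) K)) =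
      fun s => C (j (u s)) := by
    funext s
    simp
  have h2 : (⇑(MvPolynomial.map j) ∘ fun s => (C (v s) : MvPolynomial (Fin n) K)) =
      fun s => C (j (v s)) := by
    funext s
    simp
  have h3 : ((List.ofFn fun i : Fin n =>
        (M i).map fun p => Polynomial.aeval (X (τ i) : MvPolynomial (Fin n) K) p).prod).map
        (MvPolynomial.map j) = (List.ofFn fun i : Fin n =>
        ((M i).map (Polynomial.map j)).map fun p =>
          Polynomial.aeval (X (τ i) : MvPolynomial (Fin n) L) p).prod := by
    have h4 := map_list_prod ((MvPolynomial.map j : MvPolynomial (Fin n) K →+*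
      MvPolynomial (Fin n) L).mapMatrix (m := Fin w)) (List.ofFn fun i : Fin n =>
        (M i).map fun p => Polynomial.aeval (X (τ i) : MvPolynomial (Fin n) K) p)
    rw [RingHom.mapMatrix_apply] at h4
    rw [h4, List.map_ofFn]
    congr 2
    funext i
    simp only [Function.comp_apply, RingHom.mapMatrix_apply]
    ext1 a b
    simp only [Matrix.map_apply]
    rw [Polynomial.aeval_def, Polynomial.aeval_def, Polynomial.hom_eval₂, Polynomial.eval₂_map,
      MvPolynomial.map_X]
    congr 1
    ext c
    simp
  rw [h1]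
  congr 1
  funext s
  rw [Function.comp_apply, RingHom.map_mulVec, h3, h2]

theorem RTF_sum {K L : Type*} [CommRing K] [CommRing L] {n : ℕ} (c w : ℕ) (j : K →+* L)
    (A : MvPolynomial (Fin n) K) (h : IsSumROABP c w A) :
    IsSumROABP c w (MvPolynomial.map j A) := by
  obtain ⟨B, hB, rfl⟩ := h
  exact ⟨fun i => MvPolynomial.map j (B i), fun i => RTF_roabp w j _ (hB i), by rw [map_sum]⟩

/-- the power series of a rational function -/
noncomputable def RTF_ps {k : Type u} [Field k] (a : RatFunc k) : PowerSeries k :=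
  (a.num : PowerSeries k) * (a.denom : PowerSeries k)⁻¹

theorem RTF_ps_zero {k : Type u} [Field k] : RTF_ps (0 : RatFunc k) = 0 := by
  rw [RTF_ps, RatFunc.num_zero]
  simp

theorem RTF_ps_const {k : Type u} [Field k] (a : RatFunc k) :
    PowerSeries.constantCoeff (RTF_ps a) = RatFunc.eval (RingHom.id k) 0 a := by
  rw [RTF_ps, map_mul, PowerSeries.constantCoeff_inv, RatFunc.eval, Polynomial.eval₂_id,
    Polynomial.eval₂_id, Polynomial.constantCoeff_coe, Polynomial.constantCoeff_coe,
    Polynomial.coeff_zero_eq_eval_zero, Polynomial.coeff_zero_eq_eval_zero, div_eq_mul_inv]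

theorem RTF_ps_map {k : Type u} [Field k] (a : RatFunc k) (h : Polynomial.eval 0 a.denom ≠ 0) :
    algebraMap (PowerSeries k) (LaurentSeries k) (RTF_ps a) =
      algebraMap (RatFunc k) (LaurentSeries k) a := by
  have h1 : PowerSeries.constantCoeff (a.denom : PowerSeries k) ≠ 0 := by
    rw [Polynomial.constantCoeff_coe,
      Polynomial.coeff_zero_eq_eval_zero]
    exact h
  have h2 : (a.denom : PowerSeries k) * (a.denom : PowerSeries k)⁻¹ = 1 :=
    PowerSeries.mul_inv_cancel _ h1
  have h3 : RTF_ps a * (a.denom : PowerSeries k) = (a.num : PowerSeries k) := by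
    rw [RTF_ps, mul_assoc, mul_comm (a.denom : PowerSeries k)⁻¹, h2, mul_one]
  have hP : ∀ P : Polynomial k, algebraMap (PowerSeries k) (LaurentSeries k) (P : PowerSeries k) =
      algebraMap (RatFunc k) (LaurentSeries k) (algebraMap (Polynomial k) (RatFunc k) P) := by
    intro P
    have := RatFunc.coe_coe (F := k) P
    exact this
  have h4 := congrArg (algebraMap (PowerSeries k) (LaurentSeries k)) h3
  rw [map_mul, hP, hP] at h4
  have h5 : algebraMap (RatFunc k) (LaurentSeries k) (algebraMap (Polynomial k) (RatFunc k)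
      a.denom) ≠ 0 := by
    rw [Ne, map_eq_zero]
    exact (map_ne_zero_iff _ (RatFunc.algebraMap_injective k)).mpr a.denom_ne_zero
  have h6 : a * algebraMap (Polynomial k) (RatFunc k) a.denom =
      algebraMap (Polynomial k) (RatFunc k) a.num := by
    have h7 := RatFunc.num_div_denom a
    have h8 : algebraMap (Polynomial k) (RatFunc k) a.denom ≠ 0 :=
      (map_ne_zero_iff _ (RatFunc.algebraMap_injective k)).mpr a.denom_ne_zero
    rwa [div_eq_iff h8, eq_comm] at h7
  apply mul_right_cancel₀ h5
  rw [h4, ← h6, map_mul]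

theorem RTF : RTF_stmt.{u} := by
  intro k _ n c w f F hF hs
  classical
  let G : MvPolynomial (Fin n) (PowerSeries k) :=
    ∑ m ∈ F.support, monomial m (RTF_ps (F.coeff m))
  have hG : ∀ m, G.coeff m = RTF_ps (F.coeff m) := by
    intro m
    simp only [G, coeff_sum, coeff_monomial]
    rw [Finset.sum_ite_eq' F.support m]
    split_ifs with h
    · rfl
    · rw [notMem_support_iff.mp h, RTF_ps_zero]
  refine ⟨G, ?_, ?_⟩
  · have h1 : MvPolynomial.map (algebraMap (PowerSeries k) (LaurentSeries k)) G =
        MvPolynomial.map (algebraMap (RatFunc k) (LaurentSeries k)) F := by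
      ext m
      rw [coeff_map, coeff_map, hG, RTF_ps_map _ (hs m).1]
    rw [h1]
    exact RTF_sum c w _ F hF
  · ext m
    rw [coeff_map, hG, RTF_ps_const, (hs m).2]

end Pool.Agent.helper92.VC
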